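import Pool.Agent.Helper59.LUC.Goals

set_option autoImplicit false

namespace Pool.Agent.Helper59.LUC

namespace PkR2

/-- the part of `k` composed of primes dividing `n` splits off -/
theorem split (n : ℕ) : ∀ k : ℕ, 0 < k → ∃ d k' : ℕ, k = d * k' ∧ k'.Coprime n ∧
    ∀ q : ℕ, q.Prime → q ∣ d → q ∣ n := by
  intro k
  induction k using Nat.strong_induction_on with
  | _ k ih =>
    intro hk
    by_cases h : k.Coprime n
    · refine ⟨1, k, by simp, h, fun q hq h1 => ?_⟩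
      exact absurd (Nat.dvd_one.1 h1) hq.one_lt.ne'
    · obtain ⟨p, hp, h1, h2⟩ := Nat.Prime.not_coprime_iff_dvd.1 h
      obtain ⟨k1, rfl⟩ := h1
      have hk1 : 0 < k1 := Nat.pos_of_mul_pos_left hk
      have hlt : k1 < p * k1 := by
        have := hp.one_lt
        nlinarith
      obtain ⟨d, k', h3, h4, h5⟩ := ih k1 hlt hk1
      refine ⟨p * d, k', by rw [h3]; ring, h4, fun q hq h6 => ?_⟩
      rcases (hq.dvd_mul).1 h6 with h7 | h7
      · rw [(Nat.prime_dvd_prime_iff_eq hq hp).1 h7]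
        exact h2
      · exact h5 q hq h7

/-- ranks are unique -/
theorem rank_unique {T M : ℤ} {p r r' : ℕ} (h : ∀ n : ℕ, ((p : ℤ) ∣ W T M n ↔ r ∣ n))
    (h' : ∀ n : ℕ, ((p : ℤ) ∣ W T M n ↔ r' ∣ n)) : r = r' :=
  Nat.dvd_antisymm ((h r').1 ((h' r').2 dvd_rfl)) ((h' r).1 ((h r).2 dvd_rfl))

/-- the ranks of the primes dividing `c` are bounded -/
theorem bad_bound (T M : ℤ) (c : ℕ) (hc : 0 < c) : ∃ B : ℕ, ∀ p r : ℕ, p.Prime → p ∣ c →
    (∀ n : ℕ, ((p : ℤ) ∣ W T M n ↔ r ∣ n)) → r ≤ B := by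
  classical
  let g : ℕ → ℕ := fun p => if h : ∃ r : ℕ, ∀ n : ℕ, ((p : ℤ) ∣ W T M n ↔ r ∣ n)
    then h.choose else 0
  refine ⟨c.primeFactors.sup g, fun p r hp hpc h => ?_⟩
  have h1 : p ∈ c.primeFactors := Nat.mem_primeFactors.2 ⟨hp, hpc, hc.ne'⟩
  have h2 : ∃ r : ℕ, ∀ n : ℕ, ((p : ℤ) ∣ W T M n ↔ r ∣ n) := ⟨r, h⟩
  have h3 : r = h2.choose := rank_unique h h2.choose_spec
  have h4 : g p ≤ c.primeFactors.sup g := Finset.le_sup h1
  have h5 : g p = h2.choose := dif_pos h2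
  omega

theorem thm (hx : G_X) (hy : G_Y) : G_R2 := by
  intro T M η hc N hN m d k c hm hd hdm hk hc0
  obtain ⟨rx, hrx⟩ := hx T M η hc N hN
  obtain ⟨ry, hry⟩ := hy T M η hc N hN m d hm hd hdm
  obtain ⟨B, hB⟩ := bad_bound T M c hc0
  refine ⟨rx + ry + B + 1, fun n' hn' hcond => ?_⟩
  have hn0 : 0 < n' := by omega
  have hgood : ∀ p r : ℕ, p.Prime → n' ≤ r → (∀ n : ℕ, ((p : ℤ) ∣ W T M n ↔ r ∣ n)) → ¬ p ∣ c := by
    intro p r hp hr h hpc
    have := hB p r hp hpc h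
    omega
  by_cases hA : ∀ q : ℕ, q.Prime → q ∣ k → q ∣ n'
  · have hle : n' ≤ n' * k := Nat.le_mul_of_pos_right _ hk
    obtain ⟨p, p', hp, hp', hne, hpM, hpM', h1, h2⟩ := hry (n' * k) (by omega) (hcond hA)
    have key : ∀ n, n' * k ∣ k * n ↔ n' ∣ n := by
      intro n
      rw [mul_comm n' k]
      exact Nat.mul_dvd_mul_iff_left hk
    refine ⟨p, p', hp, hp', hne, hgood p _ hp hle h1, hgood p' _ hp' hle h2, hpM, hpM',
      fun n => (h1 _).trans (key n), fun n => (h2 _).trans (key n)⟩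
  · push Not at hA
    obtain ⟨q, hq, hqk, hqn⟩ := hA
    obtain ⟨d0, k', hk', hcop, hd0⟩ := split n' k hk
    have hd0pos : 0 < d0 := by
      rcases Nat.eq_zero_or_pos d0 with h | h
      · rw [h, zero_mul] at hk'
        omega
      · exact h
    have hqk' : q ∣ k' := by
      rw [hk'] at hqk
      rcases (hq.dvd_mul).1 hqk with h | h
      · exact absurd (hd0 q hq h) hqn
      · exact h
    obtain ⟨k2, hk2⟩ := hqk'
    have hle1 : n' ≤ n' * d0 := Nat.le_mul_of_pos_right _ hd0pos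
    have hle2 : n' ≤ n' * d0 * q := hle1.trans (Nat.le_mul_of_pos_right _ hq.pos)
    obtain ⟨p, hp, hpM, h1⟩ := hrx (n' * d0) (by omega)
    obtain ⟨p', hp', hpM', h2⟩ := hrx (n' * d0 * q) (by omega)
    have hne : p ≠ p' := by
      rintro rfl
      have h3 := rank_unique h1 h2
      have h4 : 0 < n' * d0 := by positivity
      have h5 := hq.one_lt
      nlinarith
    have key1 : ∀ n, n' * d0 ∣ k * n ↔ n' ∣ n := by
      intro n
      rw [hk', mul_comm n' d0, mul_assoc, Nat.mul_dvd_mul_iff_left hd0pos]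
      exact (hcop.symm).dvd_mul_left
    have hcop2 : k2.Coprime n' := by
      rw [hk2] at hcop
      exact Nat.Coprime.coprime_mul_left hcop
    have key2 : ∀ n, n' * d0 * q ∣ k * n ↔ n' ∣ n := by
      intro n
      have e1 : n' * d0 * q = d0 * (q * n') := by ring
      have e2 : k * n = d0 * (q * (k2 * n)) := by rw [hk', hk2]; ring
      rw [e1, e2, Nat.mul_dvd_mul_iff_left hd0pos, Nat.mul_dvd_mul_iff_left hq.pos]
      exact (hcop2.symm).dvd_mul_left
    exact ⟨p, p', hp, hp', hne, hgood p _ hp hle1 h1, hgood p' _ hp' hle2 h2, hpM, hpM',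
      fun n => (h1 _).trans (key1 n), fun n => (h2 _).trans (key2 n)⟩

end PkR2

end Pool.Agent.Helper59.LUC
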